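import Pool.Agent.H58.SP.Rel
import Pool.Agent.H58.LM.Prog

/-! The functions computed by the gates which are not special. -/

set_option autoImplicit false
set_option linter.unusedSectionVars false

namespace Pool.Agent.H58.SP

open Finset Pool.Agent.H58.LM

/-- the functions computed by the gates which are not special -/
def Kind {s : ℕ} (R : ℕ) (S : Finset (Fin s)) (Φ : (Fin s → ℝ) → ℝ) : Prop :=
  Pool.Agent.H58.LM.Kind R S Φ ∨
  ∀ t, ∃ (F : Type) (_ : Field F) (P : Span F (Fin s)), (2 : F) ≠ 0 ∧ P.num ≤ R ∧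
    (∀ r, P.lab r ∈ S) ∧ ∀ a, t ≤ Φ a ↔ P.Accepts a

theorem Kind.mono {s R : ℕ} {S : Finset (Fin s)} {Φ : (Fin s → ℝ) → ℝ} (h : Kind R S Φ)
    {a b : Fin s → ℝ} (hab : ∀ j ∈ S, a j ≤ b j) : Φ a ≤ Φ b := by
  rcases h with h | h
  · exact h.mono hab
  · obtain ⟨F, _, P, -, -, h2, h3⟩ := h (Φ a)
    exact (h3 b).mpr (((h3 a).mp le_rfl).mono fun r => hab _ (h2 r))

theorem Kind.congr {s R : ℕ} {S : Finset (Fin s)} {Φ : (Fin s → ℝ) → ℝ} (h : Kind R S Φ)
    {a b : Fin s → ℝ} (hab : ∀ j ∈ S, a j = b j) : Φ a = Φ b :=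
  le_antisymm (h.mono fun j hj => (hab j hj).le) (h.mono fun j hj => (hab j hj).ge)

end Pool.Agent.H58.SP
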