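import Pool.Agent.H58.SP.Ind
import Pool.Agent.H58.SP.Prog
import Pool.Agent.H58.LM.Blk

/-! The block lemma. -/

set_option autoImplicit false
set_option linter.unusedSectionVars false

namespace Pool.Agent.H58.SP

open Finset Pool.Agent.H58.LM
open Pool.Agent.H58.LG (zz)

/-- The kinds of gates of a circuit without special gates. -/
def Plain {n s : ℕ} (R : ℕ) (f : Fin s → SimpleGraph (Fin n) → ℝ) (i : Fin s) : Prop :=
  Pool.Agent.H58.LM.Plain R f i ∨
  ∀ t, ∃ (F : Type) (_ : Field F) (P : Span F (Fin s)), (2 : F) ≠ 0 ∧ P.num ≤ R ∧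
    (∀ r, P.lab r < i) ∧ ∀ G, t ≤ f i G ↔ P.Accepts fun j => f j G

/-- **The block lemma.** -/
theorem block {n s R u d g : ℕ} {α V : Type} [Fintype α] [DecidableEq α] [Fintype V]
    [DecidableEq V] (G : Gr V) (hG : G.Good (90 * d)) (hV : 90 * d + 1 ≤ Fintype.card V)
    (hα : Fintype.card α = (2 ^ u) ^ 17) (hd : 8 ≤ d) (hg : 1 ≤ g)
    (hk : 1 + 2 * (g * Fintype.card V) ≤ 2 ^ u) (hpu : u * (7872 * d + 80) ≤ 2 ^ u)
    (hs : s ≤ (2 ^ u) ^ (10 * d)) (hR : R + 1 ≤ (2 ^ u) ^ (10 * d))
    (f : Fin s → SimpleGraph (Fin n) → ℝ) (hf : ∀ i, Plain R f i)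
    (gx : (TE g V → α) → SimpleGraph (Fin n))
    (gy : (TE g V → α → Bool) → SimpleGraph (Fin n))
    (hedge : ∀ x v w, (gx x).Adj v w → ∃ J : Finset (TE g V), J.card ≤ 8 ∧
      ∀ y, ¬ (gy y).Adj v w → ¬ Live (tor g G hG) J (zz x y))
    (o : Fin s) (X : Finset (TE g V → α)) (Y : Finset (TE g V → α → Bool))
    (hXY : ∀ x ∈ X, ∀ y ∈ Y, f o (gy y) < f o (gx x))
    (hX : Fintype.card (TE g V → α) ≤ X.card * (2 ^ u) ^ 9)
    (hY : Fintype.card (TE g V → α → Bool) ≤ Y.card * (2 ^ u) ^ (20 * d)) : False := by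
  classical
  obtain ⟨k, hkd⟩ : ∃ k, k = Fintype.card (TE g V) := ⟨_, rfl⟩
  have hkc : k = 2 * (g * Fintype.card V) := by
    rw [hkd, Fintype.card_prod, Fintype.card_prod, Fintype.card_fin, Fintype.card_bool]
    ring
  have hgV : Fintype.card V ≤ g * Fintype.card V := Nat.le_mul_of_pos_left _ hg
  have hu : 16 ≤ u := by
    by_contra hcon
    push Not at hcon
    have h1 : 2 ^ u ≤ 2 ^ 15 := Nat.pow_le_pow_right (by norm_num) (by omega)
    have h2 : 63056 ≤ 7872 * d + 80 := by omega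
    rcases Nat.eq_zero_or_pos u with h3 | h3
    · rw [h3, pow_zero] at hk
      omega
    · have h4 : 1 * 63056 ≤ u * (7872 * d + 80) := Nat.mul_le_mul h3 h2
      omega
  obtain ⟨C, N, P, hPd, hPt, hPκ, hPη, hC1, hC2, hN⟩ := exists_par' (k := k) (s := s) (R := R + 1)
    (u := u) (d := d) hα (by omega) hu (by omega) (by omega) hpu hs hR
  obtain ⟨U, hU⟩ : ∃ U : ℝ, U = 2 ^ u := ⟨_, rfl⟩
  have hU16 : (65536 : ℝ) ≤ U := by
    calc (65536 : ℝ) = 2 ^ 16 := by norm_num
      _ ≤ U := by rw [hU]; exact pow_le_pow_right₀ (by norm_num) hu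
  have hU0 : 0 < U := by linarith
  have hU1 : 1 ≤ U := by linarith
  have hsU : (s : ℝ) ≤ U ^ (10 * d) := by rw [hU]; exact_mod_cast hs
  have hkm : (1 + k * Fintype.card α : ℝ) ≤ U ^ 18 := by
    have h1 : 1 + k * (2 ^ u) ^ 17 ≤ (2 ^ u) ^ 18 := by
      have h2 : 1 ≤ (2 ^ u) ^ 17 := Nat.one_le_pow _ _ (by positivity)
      calc 1 + k * (2 ^ u) ^ 17 ≤ (1 + k) * (2 ^ u) ^ 17 := by rw [add_mul, one_mul]; omega
        _ ≤ 2 ^ u * (2 ^ u) ^ 17 := Nat.mul_le_mul_right _ (by omega)
        _ = (2 ^ u) ^ 18 := by ring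
    rw [hU, hα]
    exact_mod_cast h1
  subst hkd
  refine dag P (tor g G hG) (w := 6) (R := R + 1)
    (by omega) hC1 hC2 hN (fun i x => f i (gx x)) (fun i y => f i (gy y)) ?_ o X Y hXY ?_ ?_
  · intro i
    rcases hf i with (⟨v, w, h⟩ | ⟨c, h⟩ | h | ⟨Q, S, φ, lo, hi, h1, h2, h3, h4, h5, h6⟩) |
      h
    · left
      left
      intro x
      by_cases hadj : (gx x).Adj v w
      · obtain ⟨J, hJ1, hJ2⟩ := hedge x v w hadj
        refine ⟨J, by omega, fun y hy => hJ2 y fun hyadj => ?_⟩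
        simp only [h] at hy
        rw [bit_true hadj, bit_true hyadj] at hy
        exact lt_irrefl _ hy
      · refine ⟨∅, by simp, fun y hy => ?_⟩
        simp only [h] at hy
        rw [bit_false hadj] at hy
        exfalso
        by_cases hyadj : (gy y).Adj v w
        · rw [bit_true hyadj] at hy; linarith
        · rw [bit_false hyadj] at hy; linarith
    · left
      left
      intro x
      refine ⟨∅, by simp, fun y hy => ?_⟩
      simp only [h] at hy
      exact absurd hy (lt_irrefl _)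
    · left
      right
      left
      intro x
      obtain ⟨S, h1, h2, h3⟩ := h (gx x)
      refine ⟨S, h1, h2, fun y hxy => ?_⟩
      by_contra hcon
      push Not at hcon
      exact absurd (h3 _ hcon) (not_le.mpr hxy)
    · left
      right
      right
      exact (linRel_of_program Q S h4 φ h3 h5 (fun i x => f i (gx x)) (fun i y => f i (gy y)) i h2
        (fun x => h6 _) (fun y => h6 _)).mono (by omega)
    · right
      refine spanRel_of_span (fun i x => f i (gx x)) (fun i y => f i (gy y)) i fun t => ?_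
      obtain ⟨F, hF, Q, h0, h1, h2, h3⟩ := h t
      exact ⟨F, hF, Q, h0, by omega, h2, fun x => h3 _, fun y => h3 _⟩
  · -- the x side
    have h1 : (Fintype.card (TE g V → α) : ℝ) ≤ X.card * U ^ 9 := by
      rw [hU]
      exact_mod_cast hX
    rw [hPκ, hPη, ← hU]
    have h2 : (Fintype.card α : ℝ) ^ Fintype.card (TE g V) =
        Fintype.card (TE g V → α) := by
      rw [Fintype.card_fun]
      push_cast
      ring
    rw [h2]
    have h3 : (s : ℝ) * (1 / U ^ (10 * d + 10)) ≤ 1 / U ^ 10 := by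
      rw [mul_one_div, div_le_div_iff₀ (by positivity) (by positivity), one_mul, pow_add]
      exact mul_le_mul_of_nonneg_right hsU (by positivity)
    have h4 : (0 : ℝ) ≤ Fintype.card (TE g V → α) := Nat.cast_nonneg _
    have h5 : (1 / U ^ 10 + s * (1 / U ^ (10 * d + 10))) *
        (Fintype.card (TE g V → α) : ℝ) ≤ (2 / U ^ 10) * (X.card * U ^ 9) := by
      refine mul_le_mul ?_ h1 h4 (by positivity)
      have : 2 / U ^ 10 = 1 / U ^ 10 + 1 / U ^ 10 := by ring
      linarith
    refine h5.trans ?_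
    have h6 : (2 / U ^ 10) * (X.card * U ^ 9) = (2 / U) * X.card := by
      rw [pow_succ U 9]
      field_simp
    rw [h6]
    have h7 : 2 / U ≤ 1 := by
      rw [div_le_one hU0]
      linarith
    have h8 : (0 : ℝ) ≤ X.card := Nat.cast_nonneg _
    nlinarith
  · -- the y side
    have h1 : (Fintype.card (TE g V → α → Bool) : ℝ) ≤ Y.card * U ^ (20 * d) := by
      rw [hU]
      exact_mod_cast hY
    rw [hPd, hPt]
    have h2 : ((1 : ℝ) / 2) ^ (u * (48 * d + 1)) = 1 / U ^ (48 * d + 1) := by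
      rw [one_div_pow, pow_mul, hU]
    rw [h2]
    have h3 : 1 + (s : ℝ) * (1 + Fintype.card (TE g V) * Fintype.card α : ℝ) ^ d ≤
        U ^ (28 * d + 1) := by
      have e1 : (1 + Fintype.card (TE g V) * Fintype.card α : ℝ) ^ d ≤ U ^ (18 * d) := by
        rw [pow_mul]
        exact pow_le_pow_left₀ (by positivity) hkm d
      have e2 : (s : ℝ) * (1 + Fintype.card (TE g V) * Fintype.card α : ℝ) ^ d ≤
          U ^ (28 * d) := by
        calc (s : ℝ) * (1 + Fintype.card (TE g V) * Fintype.card α : ℝ) ^ d ≤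
              U ^ (10 * d) * U ^ (18 * d) := mul_le_mul hsU e1 (by positivity) (by positivity)
          _ = U ^ (28 * d) := by rw [← pow_add]; congr 1; omega
      have e3 : (1 : ℝ) ≤ U ^ (28 * d) := one_le_pow₀ hU1
      calc 1 + (s : ℝ) * (1 + Fintype.card (TE g V) * Fintype.card α : ℝ) ^ d ≤
            2 * U ^ (28 * d) := by linarith
        _ ≤ U * U ^ (28 * d) := mul_le_mul_of_nonneg_right (by linarith) (by positivity)
        _ = _ := by ring
    have h4 : (0 : ℝ) ≤ Y.card := Nat.cast_nonneg _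
    calc (1 + (s : ℝ) * (1 + Fintype.card (TE g V) * Fintype.card α : ℝ) ^ d) *
          (1 / U ^ (48 * d + 1) * Fintype.card (TE g V → α → Bool))
        ≤ U ^ (28 * d + 1) * (1 / U ^ (48 * d + 1) * (Y.card * U ^ (20 * d))) := by
          refine mul_le_mul h3 (mul_le_mul_of_nonneg_left h1 (by positivity)) (by positivity)
            (by positivity)
      _ = Y.card := by
          have : U ^ (48 * d + 1) = U ^ (28 * d + 1) * U ^ (20 * d) := by
            rw [← pow_add]
            congr 1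
            omega
          rw [this]
          field_simp

end Pool.Agent.H58.SP
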