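import Pool.Agent.H58.LM.Defs

/-! Circuits over the real numbers with linear programming gates and span programming gates: the
definitions used in the statements. -/

set_option autoImplicit false

namespace Pool.Agent.H58.SP

open Pool.Agent.H58.LM (bit Program)

/-- A monotone span programme over `F` which depends on real numbers `a j`: `num` rows with `dim`
entries in `F`, and a target vector. Row `r` may be used if `thr r ≤ a (lab r)`. -/
structure Span (F T : Type) where
  /-- the number of columns -/
  dim : ℕ
  /-- the number of rows -/
  num : ℕ
  /-- the rows -/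
  row : Fin num → Fin dim → F
  /-- the target vector -/
  target : Fin dim → F
  /-- the number which decides whether a row may be used -/
  lab : Fin num → T
  /-- the threshold of a row -/
  thr : Fin num → ℝ

/-- The programme accepts the numbers `a j` if its target is a linear combination of the rows which
may be used. -/
def Span.Accepts {F T : Type} [Field F] (P : Span F T) (a : T → ℝ) : Prop :=
  ∃ c : Fin P.num → F, (∀ r, c r ≠ 0 → P.thr r ≤ a (P.lab r)) ∧
    ∀ i, ∑ r, c r * P.row r i = P.target i

/-- A circuit with `s` gates on graphs with vertex set `Fin n`, in topological order: gate `i`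
reads the earlier gates in `ins i` and has the real value `val i G` at the graph `G`. It is one of
the following: the test whether two fixed vertices are adjacent (value 1 or 0); a maximum of any
number of nondecreasing functions of at most six gates each (at every point `a` the value `φ a` is
forced by at most six coordinates); a linear programme with at most `R` inequalities; a span gate,
that is a function `φ` such that for every `t` a span programme with at most `R` rows over a field of
characteristic different from 2 decides whether `t ≤ φ a` (programme and field may depend on `t`; for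
instance `φ` is 1 if some span programme accepts and 0 if not); or one of the special gates, which
compute arbitrary Boolean functions of gates with values 0 and 1. -/
structure Circuit (n s R : ℕ) where
  /-- the value of a gate -/
  val : Fin s → SimpleGraph (Fin n) → ℝ
  /-- the gates read by a gate -/
  ins : Fin s → Finset (Fin s)
  /-- the special gates -/
  special : Finset (Fin s)
  lt : ∀ i, ∀ j ∈ ins i, j < i
  bit_out : ∀ i ∈ special, ∀ G, val i G = 0 ∨ val i G = 1
  bit_in : ∀ i ∈ special, ∀ j ∈ ins i, ∀ G, val j G = 0 ∨ val j G = 1
  gate : ∀ i,
    (∃ u v, ∀ G, val i G = bit (G.Adj u v)) ∨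
    (∃ φ : (Fin s → ℝ) → ℝ,
      (∀ a, ∃ S ⊆ ins i, S.card ≤ 6 ∧ ∀ b, (∀ j ∈ S, a j ≤ b j) → φ a ≤ φ b) ∧
      ∀ G, val i G = φ fun j => val j G) ∨
    (∃ (P : Program (Fin s)) (lo hi : ℝ), P.num ≤ R ∧ P.Mono (ins i) ∧ lo ≤ hi ∧
      ∀ G, val i G = P.value (ins i) (fun j => val j G) lo hi) ∨
    (∃ φ : (Fin s → ℝ) → ℝ,
      (∀ t, ∃ (F : Type) (_ : Field F) (P : Span F (Fin s)), (2 : F) ≠ 0 ∧ P.num ≤ R ∧
        (∀ r, P.lab r ∈ ins i) ∧ ∀ a, t ≤ φ a ↔ P.Accepts a) ∧
      ∀ G, val i G = φ fun j => val j G) ∨
    (i ∈ special ∧ ∀ G H, (∀ j ∈ ins i, val j G = val j H) → val i G = val i H)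

/-- The gates that are read by a special gate. -/
def Circuit.watched {n s R : ℕ} (C : Circuit n s R) : Finset (Fin s) :=
  C.special.biUnion C.ins

end Pool.Agent.H58.SP
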