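import Pool.Agent.H58.SP.Quant
import Pool.Agent.H58.LM.FixMain

/-! Cliques of fixed size: almost `n ^ 2` steps. -/

set_option autoImplicit false
set_option linter.unusedSectionVars false

namespace Pool.Agent.H58.SP

open Finset Pool.Agent.H58.LM
open Pool.Agent.H25.NM (nc nc_eq nc_true pre pre_mono)
open Pool.Agent.H25.NP (uni emb cliqueFree_uni)
open Pool.Agent.H58.LG (exists_blocks_free)

/-- **Main theorem for cliques of fixed size.** -/
theorem fixed {n k w d e u s R : ℕ} (he : 8 ≤ e) (hek : 4320 * e ≤ k) (hkn : 2 * k ≤ n)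
    (hu1 : 1 + 2 * (4320 * e) ≤ 2 ^ u) (hu2 : u * (7872 * e + 80) ≤ 2 ^ u)
    (hw : 4320 * e * (2 ^ u) ^ 68 ≤ w) (hd : 2 ≤ d) (hdw : d ≤ w)
    (hn : 2 * w ^ (d ^ 2 + d + 3) ≤ n) (hJ : 2 * w ^ (2 * d ^ 2 - d) < (2 ^ u) ^ (20 * e))
    (hs : s + 1 ≤ (2 ^ u) ^ (10 * e)) (hR : R + 1 ≤ (2 ^ u) ^ (10 * e))
    (C : Circuit n s R) (out : Fin s) (θ : ℝ)
    (hC : (∀ G : SimpleGraph (Fin n), θ ≤ C.val out G ↔ ¬ G.CliqueFree k) ∨
      (∀ G : SimpleGraph (Fin n), θ ≤ C.val out G ↔ G.CliqueFree k)) :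
    ∃ y : ℕ → SimpleGraph (Fin n), Monotone y ∧ ∀ a < w ^ (2 * d ^ 2 - d),
      ∃ i ∈ C.watched, C.val i (y a) ≠ C.val i (y (a + 1)) := by
  classical
  obtain ⟨m, hm⟩ : ∃ m, m = 4320 * e := ⟨_, rfl⟩
  have : NeZero (48 * (90 * e)) := ⟨by omega⟩
  obtain ⟨B, hB⟩ := exists_good (D := 90 * e) (by omega)
  have hVq : Fintype.card (ZMod (48 * (90 * e))) = m := by rw [ZMod.card, hm]; ring
  set n₀ : ℕ := n - (k - m) with hn₀
  have hn₀n : n₀ ≤ n := Nat.sub_le _ _
  have hkk : k = m + (n - n₀) := by omega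
  have hα : Nonempty (Fin ((2 ^ u) ^ 17)) := ⟨⟨0, by positivity⟩⟩
  have hVc : Fintype.card (BV 1 (ZMod (48 * (90 * e))) (Fin ((2 ^ u) ^ 17))) =
      m * (2 ^ u) ^ 68 := by
    rw [Fintype.card_prod, card_TV, Fintype.card_fun, Fintype.card_fin, Fintype.card_fin,
      hVq, one_mul, ← pow_mul (2 ^ u)]
  have hw2 : 2 ≤ w := by
    have h1 : 1 ≤ (2 ^ u) ^ 68 := Nat.one_le_pow _ _ (by positivity)
    have h2 : 4320 * e * 1 ≤ 4320 * e * (2 ^ u) ^ 68 := Nat.mul_le_mul_left _ h1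
    omega
  obtain ⟨φ, hφ, hφ3⟩ := exists_blocks_free
    (V := BV 1 (ZMod (48 * (90 * e))) (Fin ((2 ^ u) ^ 17))) (n := n₀) (w := w)
    (by rw [hVc, hm]; exact hw) hw2 hd hdw (by omega)
  generalize w ^ (2 * d ^ 2 - d) = J at *
  have hmq : 1 * Fintype.card (ZMod (48 * (90 * e))) = m := by rw [one_mul, hVq]
  have hfree : ∀ ω : Fin J → (TE 1 (ZMod (48 * (90 * e))) → Fin ((2 ^ u) ^ 17) → Bool),
      (pre φ (mp B) ω J).CliqueFree m := by
    intro ω
    have h1 := union_cliqueFree B (by rw [hVq]; omega) le_rfl φ hφ hφ3 ω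
    rwa [hmq] at h1
  -- detectors
  obtain ⟨θ', hθ1, hθ2⟩ := exists_threshold C out θ hC
  set U : SimpleGraph (Fin n₀) → SimpleGraph (Fin n) := fun G => uni n n₀ ⊔ G.map (emb hn₀n)
    with hU
  have hUmono : ∀ G H, G ≤ H → U G ≤ U H := by
    intro G H hGH
    refine sup_le_sup_left ?_ _
    exact SimpleGraph.map_monotone _ hGH
  have hUgood : ∀ G : SimpleGraph (Fin n₀), G.CliqueFree m → (U G).CliqueFree k := by
    intro G hG
    by_contra h3
    rw [hkk] at h3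
    exact (cliqueFree_uni hn₀n G).1 h3 hG
  obtain ⟨ω, hω1, hω2⟩ := chain B hB (by rw [hVq]; omega) (α := Fin ((2 ^ u) ^ 17)) (u := u)
    (g := 1) (s := s + 1) (R := R) (Fintype.card_fin _) he le_rfl
    (by rw [hmq, hm]; exact hu1) hu2 hs hR
    (uni n n₀) (emb hn₀n) φ
    (fun G H => (∃ i ∈ C.watched, C.val i (U G) ≠ C.val i (U H)) ∨ θ' ≤ C.val out (U H))
    (fun G => G.CliqueFree m) (fun x y hxy hy => hy.anti hxy) (by
      intro G hG
      obtain ⟨f, hf1, hf2⟩ := C.exists_detector (U G) out θ' (hθ1 _ (hUgood G hG))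
      exact ⟨f, Fin.last s, hf1, fun H hGH => hf2 (U H) (hUmono G H hGH)⟩) (by
      intro j x G hG
      refine hθ2 (U G) (U (G ⊔ (tq B x).map (φ j))) (hUmono _ _ le_sup_left) (hUgood G hG) ?_
      have h1 := tq_not_cliqueFree B (φ j) x G
      rw [hmq] at h1
      rw [hkk]
      exact (cliqueFree_uni hn₀n _).2 h1) (by
      rw [nc_true fun ω => hfree ω]
      omega) hJ
  refine ⟨fun a => U (pre φ (mp B) ω a), fun a b hab => hUmono _ _ (pre_mono ω hab), ?_⟩
  intro a ha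
  rcases hω2 ⟨a, ha⟩ with h1 | h1
  · exact h1
  · exfalso
    have h2 : (pre φ (mp B) ω (a + 1)).CliqueFree m :=
      hω1.anti (pre_mono ω (by omega : a + 1 ≤ J))
    exact absurd h1 (not_le.mpr (hθ1 _ (hUgood _ h2)))

/-- Circuits with few gates do not decide `k`-clique. -/
theorem few_gates {n k s R : ℕ} (hk : 2 ≤ k) (hkn : k ≤ n) (hs : s + 1 < n)
    (C : Circuit n s R) (out : Fin s) (θ : ℝ)
    (hC : (∀ G : SimpleGraph (Fin n), θ ≤ C.val out G ↔ ¬ G.CliqueFree k) ∨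
      (∀ G : SimpleGraph (Fin n), θ ≤ C.val out G ↔ G.CliqueFree k)) : False := by
  classical
  obtain ⟨z0, hz0⟩ : ∃ z0 : Fin n, z0 = ⟨0, by omega⟩ := ⟨_, rfl⟩
  have hch : ∀ i : Fin s, ∃ p : Fin n × Fin n, (∃ u v, ∀ G, C.val i G = bit (G.Adj u v)) →
      ∀ G, C.val i G = bit (G.Adj p.1 p.2) := by
    intro i
    by_cases h : ∃ u v, ∀ G, C.val i G = bit (G.Adj u v)
    · obtain ⟨u, v, h'⟩ := h
      exact ⟨(u, v), fun _ => h'⟩
    · exact ⟨(z0, z0), fun h' => absurd h' h⟩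
  choose p hp using hch
  -- a pair which is not tested
  obtain ⟨j, hj0, hj⟩ : ∃ j : Fin n, j ≠ z0 ∧ ∀ i, s((p i).1, (p i).2) ≠ s(z0, j) := by
    by_contra hcon
    push Not at hcon
    have h1 : (univ.erase z0).card ≤ (univ : Finset (Fin s)).card := by
      have h2 : ∀ j : Fin n, ∃ i : Fin s, j ≠ z0 → s((p i).1, (p i).2) = s(z0, j) := by
        intro j
        by_cases h : j ≠ z0
        · obtain ⟨i, hi⟩ := hcon j h
          exact ⟨i, fun _ => hi⟩
        · exact ⟨out, fun h' => absurd h' h⟩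
      choose f hf using h2
      refine Finset.card_le_card_of_injOn f (fun _ _ => Finset.mem_coe.2 (Finset.mem_univ _)) ?_
      intro a ha b hb hab
      have h3 := hf a (Finset.ne_of_mem_erase (Finset.mem_coe.1 ha))
      have h4 := hf b (Finset.ne_of_mem_erase (Finset.mem_coe.1 hb))
      rw [hab, h4] at h3
      exact (Sym2.congr_right.1 h3).symm
    rw [Finset.card_erase_of_mem (Finset.mem_univ _), Finset.card_univ, Finset.card_univ,
      Fintype.card_fin, Fintype.card_fin] at h1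
    omega
  -- graphs which differ only there
  have key : ∀ G H : SimpleGraph (Fin n), (∀ x y, s(x, y) ≠ s(z0, j) → (G.Adj x y ↔ H.Adj x y)) →
      ∀ m : ℕ, ∀ i : Fin s, i.1 < m → C.val i G = C.val i H := by
    intro G H hGH m
    induction m with
    | zero =>
      intro i hi
      omega
    | succ m ih =>
      intro i hi
      have ih' : ∀ l ∈ C.ins i, C.val l G = C.val l H := by
        intro l hl
        have h1 : l.1 < i.1 := C.lt i l hl
        exact ih l (by omega)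
      rcases C.plain_or i with (h | ⟨Φ, hΦ, h⟩) | ⟨-, h⟩
      · rw [hp i h, hp i h]
        exact bit_congr (hGH _ _ (hj i))
      · rw [h, h]
        exact hΦ.congr ih'
      · exact h G H ih'
  -- a clique through the pair
  obtain ⟨K, hK1, hK2, hK3⟩ := Finset.exists_subsuperset_card_eq
    (s := {z0, j}) (t := (univ : Finset (Fin n))) (n := k) (Finset.subset_univ _)
    ((Finset.card_le_two).trans hk) (by rw [Finset.card_univ, Fintype.card_fin]; exact hkn)
  have hzK : z0 ∈ K := hK1 (by simp)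
  have hjK : j ∈ K := hK1 (by simp)
  let H : SimpleGraph (Fin n) :=
    { Adj := fun x y => x ≠ y ∧ x ∈ K ∧ y ∈ K
      symm := ⟨fun _ _ h => ⟨h.1.symm, h.2.2, h.2.1⟩⟩
      loopless := ⟨fun _ h => h.1 rfl⟩ }
  let G : SimpleGraph (Fin n) :=
    { Adj := fun x y => (x ≠ y ∧ x ∈ K ∧ y ∈ K) ∧ s(x, y) ≠ s(z0, j)
      symm := ⟨fun x y h => ⟨⟨h.1.1.symm, h.1.2.2, h.1.2.1⟩, by rw [Sym2.eq_swap]; exact h.2⟩⟩
      loopless := ⟨fun _ h => h.1.1 rfl⟩ }
  have hH : ¬ H.CliqueFree k := by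
    intro h
    refine h K ⟨?_, hK3⟩
    intro x hx y hy hxy
    exact ⟨hxy, Finset.mem_coe.1 hx, Finset.mem_coe.1 hy⟩
  have hG : G.CliqueFree k := by
    intro K' hK'
    have h1 : K' ⊆ K := by
      intro x hx
      obtain ⟨y, hy, hyx⟩ := Finset.exists_mem_ne (by rw [hK'.card_eq]; omega : 1 < K'.card) x
      exact (hK'.isClique (Finset.mem_coe.2 hx) (Finset.mem_coe.2 hy) (Ne.symm hyx)).1.2.1
    have h2 : K' = K := Finset.eq_of_subset_of_card_le h1 (by rw [hK'.card_eq, hK3])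
    rw [← h2] at hzK hjK
    exact (hK'.isClique (Finset.mem_coe.2 hzK) (Finset.mem_coe.2 hjK) (Ne.symm hj0)).2 rfl
  have hval : C.val out G = C.val out H := by
    refine key G H (fun x y hxy => ?_) s out out.2
    constructor
    · exact fun h => h.1
    · exact fun h => ⟨h, hxy⟩
  rcases hC with hC | hC
  · have h1 := (hC H).2 hH
    rw [← hval, hC] at h1
    exact h1 hG
  · have h1 := (hC G).2 hG
    rw [hval, hC] at h1
    exact hH h1

end Pool.Agent.H58.SP
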