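import Pool.Agent.H58.SP.Defs
import Pool.Agent.H80.SP.Node

/-! Span programmes: monotonicity, renaming, the dual vector, and the relation between a span gate
and the gates before it. -/

set_option autoImplicit false
set_option linter.unusedSectionVars false

namespace Pool.Agent.H58.SP

open Finset

variable {F T T' : Type}

theorem Span.Accepts.mono [Field F] {P : Span F T} {a b : T → ℝ}
    (h : ∀ r, a (P.lab r) ≤ b (P.lab r)) (ha : P.Accepts a) : P.Accepts b := by
  obtain ⟨c, h1, h2⟩ := ha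
  exact ⟨c, fun r hr => (h1 r hr).trans (h r), h2⟩

/-- renaming of the gates -/
def Span.map (P : Span F T) (e : T → T') : Span F T' where
  dim := P.dim
  num := P.num
  row := P.row
  target := P.target
  lab := fun r => e (P.lab r)
  thr := P.thr

theorem Span.map_accepts [Field F] (P : Span F T) (e : T → T') (a : T' → ℝ) :
    (P.map e).Accepts a ↔ P.Accepts fun t => a (e t) := Iff.rfl

/-- the dual vector -/
theorem Span.exists_dual [Field F] (P : Span F T) {b : T → ℝ} (h : ¬ P.Accepts b) :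
    ∃ w : Fin P.dim → F, (∑ k, w k * P.target k = 1) ∧
      ∀ r, P.thr r ≤ b (P.lab r) → ∑ k, w k * P.row r k = 0 := by
  classical
  obtain ⟨g, hg⟩ : ∃ g : {r : Fin P.num // P.thr r ≤ b (P.lab r)} → (Fin P.dim → F),
      ∀ r, g r = P.row r.1 := ⟨_, fun _ => rfl⟩
  have hnot : P.target ∉ Submodule.span F (Set.range g) := by
    intro hmem
    rw [Submodule.mem_span_range_iff_exists_fun] at hmem
    obtain ⟨c, hc⟩ := hmem
    apply h
    refine ⟨fun r => if hr : P.thr r ≤ b (P.lab r) then c ⟨r, hr⟩ else 0, fun r hr => ?_,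
      fun i => ?_⟩
    · by_contra hcon
      exact hr (dif_neg hcon)
    · have h1 := congrFun hc i
      rw [Finset.sum_apply] at h1
      rw [← h1]
      have h2 : ∀ r ∈ (univ : Finset (Fin P.num)),
          (if hr : P.thr r ≤ b (P.lab r) then c ⟨r, hr⟩ else 0) * P.row r i =
          if hr : P.thr r ≤ b (P.lab r) then c ⟨r, hr⟩ * P.row r i else 0 := by
        intro r _
        split_ifs with hr
        · rfl
        · rw [zero_mul]
      rw [Finset.sum_congr rfl h2]
      rw [← Finset.sum_filter_add_sum_filter_not univ (fun r => P.thr r ≤ b (P.lab r))]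
      rw [Finset.sum_eq_zero (s := univ.filter fun r => ¬ P.thr r ≤ b (P.lab r)) (fun r hr =>
        dif_neg (Finset.mem_filter.mp hr).2), add_zero]
      rw [← Finset.sum_subtype_of_mem
        (f := fun r => if hr : P.thr r ≤ b (P.lab r) then c ⟨r, hr⟩ * P.row r i else 0)
        (p := fun r => P.thr r ≤ b (P.lab r)) (fun r hr => (Finset.mem_filter.mp hr).2)]
      have h3 : (univ.filter fun r => P.thr r ≤ b (P.lab r)).subtype
          (fun r => P.thr r ≤ b (P.lab r)) = univ := by
        ext r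
        simp [r.2]
      rw [h3]
      refine Finset.sum_congr rfl fun r _ => ?_
      rw [dif_pos r.2, hg]
      rfl
  obtain ⟨f, hf1, hf2⟩ := Submodule.exists_le_ker_of_notMem hnot
  have hf : ∀ v : Fin P.dim → F, f v = ∑ k, f (Pi.single k 1) * v k := by
    intro v
    rw [LinearMap.pi_apply_eq_sum_univ f v]
    refine Finset.sum_congr rfl fun k _ => ?_
    rw [smul_eq_mul, mul_comm]
    congr 2
    funext j
    by_cases hj : k = j
    · subst hj; simp
    · rw [if_neg hj, Pi.single_eq_of_ne (Ne.symm hj)]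
  refine ⟨fun k => (f P.target)⁻¹ * f (Pi.single k 1), ?_, fun r hr => ?_⟩
  · simp only [mul_assoc]
    rw [← Finset.mul_sum, ← hf, inv_mul_cancel₀ hf1]
  · simp only [mul_assoc]
    rw [← Finset.mul_sum, ← hf]
    have h1 : P.row r ∈ Submodule.span F (Set.range g) :=
      Submodule.subset_span ⟨⟨r, hr⟩, hg _⟩
    have h2 := hf2 h1
    rw [LinearMap.mem_ker] at h2
    rw [h2, mul_zero]

variable {ι α : Type*} [Fintype ι] [DecidableEq ι] [Fintype α] [DecidableEq α]

/-- **A span gate gives the relation between a gate and the gates before it.** -/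
theorem spanRel_of_span {s R : ℕ} (vx : Fin s → (ι → α) → ℝ)
    (vy : Fin s → (ι → α → Bool) → ℝ) (i : Fin s)
    (h : ∀ t, ∃ (F : Type) (_ : Field F) (P : Span F (Fin s)), (2 : F) ≠ 0 ∧ P.num ≤ R ∧
      (∀ r, P.lab r < i) ∧
      (∀ x, t ≤ vx i x ↔ P.Accepts fun j => vx j x) ∧
      ∀ y, t ≤ vy i y ↔ P.Accepts fun j => vy j y) : H80SP.SpanRel R vx vy i := by
  classical
  intro X Y hXne hYne hXY
  obtain ⟨x0, hx0, hmin⟩ := Finset.exists_min_image X (vx i) hXne
  obtain ⟨F, hF, P, h2, hnum, hS, hx, hy⟩ := h (vx i x0)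
  have hc : ∀ x : ι → α, ∃ c : Fin P.num → F, x ∈ X →
      (∀ r, c r ≠ 0 → P.thr r ≤ vx (P.lab r) x) ∧ ∀ i, ∑ r, c r * P.row r i = P.target i := by
    intro x
    by_cases hxX : x ∈ X
    · obtain ⟨c, h1, h2⟩ := (hx x).mp (hmin x hxX)
      exact ⟨c, fun _ => ⟨h1, h2⟩⟩
    · exact ⟨0, fun h => absurd h hxX⟩
  have hw : ∀ y : ι → α → Bool, ∃ w : Fin P.dim → F, y ∈ Y →
      (∑ k, w k * P.target k = 1) ∧
      ∀ r, P.thr r ≤ vy (P.lab r) y → ∑ k, w k * P.row r k = 0 := by
    intro y
    by_cases hyY : y ∈ Y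
    · obtain ⟨w, h1, h2⟩ := P.exists_dual fun h3 =>
        absurd ((hy y).mpr h3) (not_le.mpr (hXY x0 hx0 y hyY))
      exact ⟨w, fun _ => ⟨h1, h2⟩⟩
    · exact ⟨0, fun h => absurd h hyY⟩
  choose c hc using hc
  choose w hw using hw
  refine ⟨F, hF, P.num, fun r x => c x r, fun r y => ∑ k, w y k * P.row r k,
    P.lab, P.thr, h2, hnum, hS, fun r x hxX h => (hc x hxX).1 r h,
    fun r y hyY h => ?_, fun x hxX y hyY => ?_⟩
  · by_contra hcon
    push Not at hcon
    exact h ((hw y hyY).2 r hcon)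
  · simp only [Finset.mul_sum]
    rw [Finset.sum_comm, ← (hw y hyY).1]
    refine Finset.sum_congr rfl fun k _ => ?_
    rw [← (hc x hxX).2 k, Finset.mul_sum]
    exact Finset.sum_congr rfl fun r _ => by ring

end Pool.Agent.H58.SP
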